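import Pool.Agent.N662.FP.Stm

/-!
Project FL: covering of the inner event by one-point events.
-/

set_option autoImplicit false

open MeasureTheory ProbabilityTheory Filter Set
open scoped ENNReal Pointwise Topology

namespace Pool.Agent.N403.FL

open Pool.Agent.N662.FP

theorem t_E1 (h : S_NORM) : S_E1 := by
  intro μ hμ
  obtain ⟨c, C, hc, hC, hn⟩ := h μ hμ
  refine ⟨C, (2 * (1 + C) / c + 3) ^ 2, hC, by positivity, ?_⟩
  intro κ t hκ ht
  have ht0 : 0 < t := by linarith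
  have h1 : t ^ (-κ) ≤ 1 := Real.rpow_le_one_of_one_le_of_nonpos ht (by linarith)
  have h2 : 0 ≤ t ^ (-κ) := Real.rpow_nonneg ht0.le _
  obtain ⟨a, ha⟩ : ∃ a, a = (1 - t ^ (-κ)) * t := ⟨_, rfl⟩
  have ha1 : a = t - t ^ (1 - κ) := by
    rw [ha, sub_eq_add_neg 1 κ, Real.rpow_add ht0, Real.rpow_one]
    ring
  have ha0 : 0 ≤ a := by
    rw [ha]
    exact mul_nonneg (by linarith) ht0.le
  have hat : a ≤ t := by
    rw [ha]
    nlinarith
  obtain ⟨N, hN⟩ : ∃ N : ℕ, N = ⌈(t + C) / c⌉₊ := ⟨_, rfl⟩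
  have hN1 : (t + C) / c ≤ N := by rw [hN]; exact Nat.le_ceil _
  have hN2 : (N : ℝ) < (t + C) / c + 1 := by
    rw [hN]
    exact Nat.ceil_lt_add_one (by positivity)
  classical
  refine ⟨((Finset.Icc (-(N : ℤ)) N) ×ˢ (Finset.Icc (-(N : ℤ)) N)).filter
    (fun v => μ (em v) ≤ a + C), ?_, ?_, ?_⟩
  · have h3 : (((Finset.Icc (-(N : ℤ)) N) ×ˢ (Finset.Icc (-(N : ℤ)) N)).filter
        (fun v => μ (em v) ≤ a + C)).card ≤ (2 * N + 1) * (2 * N + 1) := by
      refine (Finset.card_filter_le _ _).trans (le_of_eq ?_)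
      rw [Finset.card_product, Int.card_Icc]
      have : ((N : ℤ) + 1 - -(N : ℤ)).toNat = 2 * N + 1 := by omega
      rw [this]
    have h4 : ((((Finset.Icc (-(N : ℤ)) N) ×ˢ (Finset.Icc (-(N : ℤ)) N)).filter
        (fun v => μ (em v) ≤ a + C)).card : ℝ) ≤ (2 * N + 1) * (2 * N + 1) := by
      exact_mod_cast h3
    have h5 : (2 * N + 1 : ℝ) ≤ (2 * (1 + C) / c + 3) * t := by
      have h6 : (t + C) / c ≤ (1 + C) / c * t := by
        rw [div_mul_eq_mul_div]
        refine div_le_div_of_nonneg_right ?_ hc.le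
        nlinarith
      have h7 : 2 * (1 + C) / c * t = 2 * ((1 + C) / c * t) := by ring
      nlinarith
    refine h4.trans ?_
    have h6 : (0 : ℝ) ≤ 2 * N + 1 := by positivity
    calc (2 * N + 1 : ℝ) * (2 * N + 1)
        ≤ ((2 * (1 + C) / c + 3) * t) * ((2 * (1 + C) / c + 3) * t) :=
          mul_le_mul h5 h5 h6 (h6.trans h5)
      _ = (2 * (1 + C) / c + 3) ^ 2 * t ^ 2 := by ring
  · intro v hv
    rw [← ha1]
    exact (Finset.mem_filter.1 hv).2
  · intro Ω T ω hω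
    have hω' : ¬ (((1 - t ^ (-κ)) * t) • {x : ℝ × ℝ | μ x ≤ 1} ⊆ Fat (T ω) t) := hω
    rw [← ha, Set.not_subset] at hω'
    obtain ⟨y, hy, hyF⟩ := hω'
    obtain ⟨z, hz, rfl⟩ := Set.mem_smul_set.1 hy
    have hz1 : μ z ≤ 1 := hz
    have hμy : μ (a • z) ≤ a := by
      rw [map_smul_eq_mul, Real.norm_eq_abs, abs_of_nonneg ha0]
      nlinarith
    obtain ⟨y, hyd⟩ : ∃ y, y = a • z := ⟨_, rfl⟩
    rw [← hyd] at hμy hyF
    obtain ⟨v, hv⟩ : ∃ v : ℤ × ℤ, v = (round y.1, round y.2) := ⟨_, rfl⟩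
    have e1 : |y.1 - (v.1 : ℝ)| ≤ 1 / 2 := by rw [hv]; exact abs_sub_round _
    have e2 : |y.2 - (v.2 : ℝ)| ≤ 1 / 2 := by rw [hv]; exact abs_sub_round _
    have hT : t < T ω v := by
      by_contra hcon
      exact hyF ⟨v, not_lt.1 hcon, e1, e2⟩
    have hv1 : μ (em v) ≤ a + C := by
      have h3 : μ (em v) ≤ μ y + μ (em v - y) := by
        have := map_add_le_add μ y (em v - y)
        rwa [add_sub_cancel] at this
      have h4 := (hn (em v - y)).2
      have h5 : max |(em v - y).1| |(em v - y).2| ≤ 1 / 2 := by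
        refine max_le ?_ ?_
        · show |(v.1 : ℝ) - y.1| ≤ 1 / 2
          rw [abs_sub_comm]
          exact e1
        · show |(v.2 : ℝ) - y.2| ≤ 1 / 2
          rw [abs_sub_comm]
          exact e2
      nlinarith
    have h6 : max |(v.1 : ℝ)| |(v.2 : ℝ)| ≤ N := by
      have h7 := (hn (em v)).1
      have h8 : max |(em v).1| |(em v).2| = max |(v.1 : ℝ)| |(v.2 : ℝ)| := rfl
      rw [h8] at h7
      refine le_trans ?_ hN1
      rw [le_div_iff₀ hc]
      nlinarith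
    have hb1 : |v.1| ≤ (N : ℤ) := by exact_mod_cast (le_max_left _ _).trans h6
    have hb2 : |v.2| ≤ (N : ℤ) := by exact_mod_cast (le_max_right _ _).trans h6
    refine Set.mem_iUnion₂.2 ⟨v, Finset.mem_filter.2 ⟨Finset.mem_product.2
      ⟨Finset.mem_Icc.2 (abs_le.1 hb1), Finset.mem_Icc.2 (abs_le.1 hb2)⟩, hv1⟩, hT⟩

end Pool.Agent.N403.FL
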